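import Mathlib
import Pool.Agent.Work.MP_8b6acb_cap.Asm

/-! The full number `j - i` of Lehman-Ron path systems, edge-disjoint off the two end layers. -/

namespace Pool.Agent.Results.MP_8b6acb_co.EndLayers

open _root_.MP_8b6acb_co Finset

/-- For every matched pair between the layers `i < j` of the directed hypercube there are `j - i`
LR solutions such that every edge which neither starts in layer `i` nor ends in layer `j` is used
by at most one of them, and every edge at all is used by at most three of them. -/
theorem result {d i j : ℕ} (hij : i < j) (S T : Finset (Vtx d))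
    (hS : ∀ s ∈ S, wt s = i) (hT : ∀ t ∈ T, wt t = j) (hST : Matched S T) :
    ∃ P : Fin (j - i) → Finset (List (Vtx d)), (∀ c, IsLRSolution S T (P c)) ∧
      ∀ e : Vtx d × Vtx d, (univ.filter (fun c => ∃ p ∈ P c, e ∈ edgesOf p)).card ≤
        if wt e.1 = i ∨ wt e.2 = j then 3 else 1 :=
  R5.cap_three d i j hij S T hS hT hST

end Pool.Agent.Results.MP_8b6acb_co.EndLayers
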