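import Mathlib
import Pool.Agent.Work.MP_8b6acb_co.Sharp
import Pool.Agent.Work.MP_8b6acb_co_R.RFinal

/-! At least half of the conjectured number of edge-disjoint Lehman-Ron path systems. -/

namespace Pool.Agent.Results.MP_8b6acb_co.HalfSystems

open _root_.MP_8b6acb_co

/-- Let `r = j - i`. For every matched pair between the layers `i < j` of the directed hypercube
and every `q ≤ r` with `2 r q ≤ r² + r + 6` there are `q` LR solutions whose union is
edge-disjoint. In particular this holds for `q = ⌈r / 2⌉` and every `r`. -/
theorem result {d i j q : ℕ} (hij : i < j) (hqr : q ≤ j - i)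
    (hq : 2 * (j - i) * q ≤ (j - i) * (j - i) + (j - i) + 6) (S T : Finset (Vtx d))
    (hS : ∀ s ∈ S, wt s = i) (hT : ∀ t ∈ T, wt t = j) (hST : Matched S T) :
    HasEdgeDisjointLR q S T :=
  R.half_systems (fun _ _ _ _ _ _ hl hm L hL => first_layer_sharp hl hm L hL)
    hij hqr hq S T hS hT hST

end Pool.Agent.Results.MP_8b6acb_co.HalfSystems
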