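import Mathlib
import Pool.Agent.Work.MP_8b6acb_co.Final
import Pool.Agent.Work.MP_8b6acb_co.Linear

/-! A linear number of edge-disjoint Lehman-Ron path systems in the directed hypercube. -/

namespace Pool.Agent.Results.MP_8b6acb_co.LinearSystems

open _root_.MP_8b6acb_co

/-- For every matched pair between layers `i < j` of the directed hypercube there are
`⌊(j - i) / 8⌋` LR solutions whose union is edge-disjoint. -/
theorem result {d i j : ℕ} (hij : i < j) (S T : Finset (Vtx d))
    (hS : ∀ s ∈ S, wt s = i) (hT : ∀ t ∈ T, wt t = j) (hST : Matched S T) :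
    HasEdgeDisjointLR ((j - i) / 8) S T := by
  rcases Nat.eq_zero_or_pos ((j - i) / 8) with h0 | h0
  · rw [h0]
    exact ⟨fun c => c.elim0, fun c => c.elim0, fun c => c.elim0⟩
  · exact hasEdgeDisjointLR (PP_eight _ i j (by omega) (by omega)) hij S T hS hT hST

end Pool.Agent.Results.MP_8b6acb_co.LinearSystems
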