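import Mathlib
import Pool.Agent.Work.MP_8b6acb_co.Final

/-! Three edge-disjoint Lehman-Ron path systems in the directed hypercube. -/

namespace Pool.Agent.Results.MP_8b6acb_co.ThreeSystems

open _root_.MP_8b6acb_co

/-- For every matched pair between layers `i` and `j` of the directed hypercube with
`j - i ≥ 3` there are three LR solutions whose union is edge-disjoint. -/
theorem result {d i j : ℕ} (hij : i + 3 ≤ j) (S T : Finset (Vtx d))
    (hS : ∀ s ∈ S, wt s = i) (hT : ∀ t ∈ T, wt t = j) (hST : Matched S T) :
    HasEdgeDisjointLR 3 S T := by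
  obtain ⟨l, rfl⟩ : ∃ l, j = i + 3 + l := ⟨j - (i + 3), by omega⟩
  exact hasEdgeDisjointLR (PP_three l i) (by omega) S T hS hT hST

end Pool.Agent.Results.MP_8b6acb_co.ThreeSystems
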